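import Pool.Agent.Q234.KT.Stm

set_option autoImplicit false

open scoped BigOperators
open Finset Pool.Agent.Q234.KT

namespace Pool.Agent.Q277.KT.JP

section

variable {V : Type} [Fintype V] [DecidableEq V]

theorem nx_nonneg {r : ℝ} (hr : 1 ≤ r) (t : Finset V → ℕ) (S : Finset V) (x : V)
    (F : (V → Fin 2) → ℂ) : 0 ≤ nx r t S x F :=
  sum_nonneg fun X _ => mul_nonneg (norm_nonneg _) (pow_nonneg (by linarith) _)

theorem nm_nonneg {r : ℝ} (hr : 1 ≤ r) (t : Finset V → ℕ) (S : Finset V)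
    (F : (V → Fin 2) → ℂ) : 0 ≤ nm r t S F :=
  sum_nonneg fun X _ => mul_nonneg (norm_nonneg _) (pow_nonneg (by linarith) _)

theorem nb_nonneg {r : ℝ} (hr : 1 ≤ r) (t : Finset V → ℕ) (x : V)
    (c : Finset V → ℂ) : 0 ≤ nb r t x c :=
  sum_nonneg fun X _ => mul_nonneg (mul_nonneg (Nat.cast_nonneg _) (norm_nonneg _))
    (pow_nonneg (by linarith) _)

theorem nx_le_nm {r : ℝ} (hr : 1 ≤ r) (t : Finset V → ℕ) (S : Finset V) (x : V)
    (F : (V → Fin 2) → ℂ) : nx r t S x F ≤ nm r t S F :=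
  sum_le_sum_of_subset_of_nonneg (filter_subset _ _)
    fun X _ _ => mul_nonneg (norm_nonneg _) (pow_nonneg (by linarith) _)

theorem co_add (F G : (V → Fin 2) → ℂ) (X : Finset V) :
    co (fun σ => F σ + G σ) X = co F X + co G X := by
  unfold co
  rw [← mul_add, ← sum_add_distrib]
  congr 1
  exact sum_congr rfl fun σ _ => by ring

theorem co_sub (F G : (V → Fin 2) → ℂ) (X : Finset V) :
    co (fun σ => F σ - G σ) X = co F X - co G X := by
  unfold co
  rw [← mul_sub, ← sum_sub_distrib]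
  congr 1
  exact sum_congr rfl fun σ _ => by ring

theorem co_mul (a : ℂ) (F : (V → Fin 2) → ℂ) (X : Finset V) :
    co (fun σ => a * F σ) X = a * co F X := by
  unfold co
  have e : ∀ σ : V → Fin 2, a * F σ * ch X σ = a * (F σ * ch X σ) := fun σ => by ring
  simp_rw [e]
  rw [← mul_sum]
  ring

theorem co_Gp (h1 : WalshS) (g : Finset V → ℂ) (A X : Finset V) :
    co (Gp g A) X = if Odd (X ∩ A).card then g X else 0 := by
  have h := (h1 V).2.1 (fun X => if Odd (X ∩ A).card then g X else 0) X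
  have e : (fun σ : V → Fin 2 => ∑ X : Finset V, (if Odd (X ∩ A).card then g X else 0) * ch X σ) =
      Gp g A := by
    funext σ
    unfold Gp
    rw [sum_filter]
    exact sum_congr rfl fun Y _ => by split_ifs <;> simp
  rw [← e]
  exact h

theorem nx_add {r : ℝ} (hr : 1 ≤ r) (t : Finset V → ℕ) (S : Finset V) (x : V)
    (F G : (V → Fin 2) → ℂ) :
    nx r t S x (fun σ => F σ + G σ) ≤ nx r t S x F + nx r t S x G := by
  unfold nx
  rw [← sum_add_distrib]
  refine sum_le_sum fun X _ => ?_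
  rw [co_add, ← add_mul]
  exact mul_le_mul_of_nonneg_right (norm_add_le _ _) (pow_nonneg (by linarith) _)

theorem nx_mul (r : ℝ) (t : Finset V → ℕ) (S : Finset V) (x : V)
    (a : ℂ) (F : (V → Fin 2) → ℂ) :
    nx r t S x (fun σ => a * F σ) = ‖a‖ * nx r t S x F := by
  unfold nx
  rw [mul_sum]
  refine sum_congr rfl fun X _ => ?_
  rw [co_mul, norm_mul]
  ring

theorem nm_mul (r : ℝ) (t : Finset V → ℕ) (S : Finset V)
    (a : ℂ) (F : (V → Fin 2) → ℂ) :
    nm r t S (fun σ => a * F σ) = ‖a‖ * nm r t S F := by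
  unfold nm
  rw [mul_sum]
  refine sum_congr rfl fun X _ => ?_
  rw [co_mul, norm_mul]
  ring

theorem Gp_sub (g g' : Finset V → ℂ) (A : Finset V) (σ : V → Fin 2) :
    Gp (fun X => g X - g' X) A σ = Gp g A σ - Gp g' A σ := by
  unfold Gp
  rw [← sum_sub_distrib]
  exact sum_congr rfl fun X _ => by ring

theorem Gp_zero (A : Finset V) (σ : V → Fin 2) : Gp (fun _ => 0) A σ = 0 := by
  unfold Gp
  exact sum_eq_zero fun X _ => by simp

/-- a single term of `nm` or `nx` of `Gp` -/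
theorem term_le (h1 : WalshS) {t : Finset V → ℕ} (ht : IsSize t) {r : ℝ} (hr : 1 ≤ r)
    (c : Finset V → ℂ) {A B : Finset V} (hAB : A ⊆ B) {b : ℕ} (hb : t B ≤ b) (X : Finset V) :
    ‖co (Gp c A) X‖ * r ^ t (B ∪ X) ≤
      if (X ∩ B).Nonempty then r ^ b * (‖c X‖ * r ^ t X) else 0 := by
  rw [co_Gp h1]
  have hr0 : 0 ≤ r := by linarith
  by_cases ho : Odd (X ∩ A).card
  · have hne : (X ∩ A).Nonempty := by
      rw [← card_pos]
      exact ho.pos
    have hne' : (X ∩ B).Nonempty := hne.mono (inter_subset_inter_left hAB)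
    rw [if_pos ho, if_pos hne']
    have h2 : t (B ∪ X) ≤ b + t X := by
      have := ht.union B X (by rwa [inter_comm])
      omega
    calc ‖c X‖ * r ^ t (B ∪ X) ≤ ‖c X‖ * r ^ (b + t X) :=
          mul_le_mul_of_nonneg_left (pow_le_pow_right₀ hr h2) (norm_nonneg _)
      _ = r ^ b * (‖c X‖ * r ^ t X) := by rw [pow_add]; ring
  · rw [if_neg ho]
    simp only [norm_zero, zero_mul]
    split_ifs
    · positivity
    · exact le_rfl

theorem nm_Gp (h1 : WalshS) {t : Finset V → ℕ} (ht : IsSize t) {r : ℝ} (hr : 1 ≤ r)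
    (c : Finset V → ℂ) {A B : Finset V} (hAB : A ⊆ B) (hB : B.Nonempty) {b : ℕ} (hb : t B ≤ b)
    {κ : ℝ} (hκ : ∀ x, nb r t x c ≤ κ) : nm r t B (Gp c A) ≤ r ^ b * b * κ := by
  have hr0 : 0 ≤ r := by linarith
  have hκ0 : 0 ≤ κ := by
    obtain ⟨v, hv⟩ := hB
    exact (nb_nonneg hr t v c).trans (hκ v)
  calc nm r t B (Gp c A)
      ≤ ∑ X : Finset V, ∑ v ∈ B, if v ∈ X then r ^ b * ((X.card : ℝ) * ‖c X‖ * r ^ t X) else 0 := by
        unfold nm
        refine sum_le_sum fun X _ => ?_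
        refine (term_le h1 ht hr c hAB hb X).trans ?_
        have hnn : ∀ v ∈ B, 0 ≤ (if v ∈ X then r ^ b * ((X.card : ℝ) * ‖c X‖ * r ^ t X) else 0) := by
          intro v _
          split_ifs
          · positivity
          · exact le_rfl
        split_ifs with h
        · obtain ⟨v, hv⟩ := h
          rw [mem_inter] at hv
          have h3 := single_le_sum hnn hv.2
          refine le_trans ?_ h3
          simp only [if_pos hv.1]
          refine mul_le_mul_of_nonneg_left ?_ (by positivity)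
          refine mul_le_mul_of_nonneg_right ?_ (by positivity)
          have h4 : (1 : ℝ) ≤ (X.card : ℝ) := by
            have : 0 < X.card := card_pos.mpr ⟨v, hv.1⟩
            exact_mod_cast this
          have h5 := norm_nonneg (c X)
          nlinarith
        · exact sum_nonneg hnn
    _ = ∑ v ∈ B, r ^ b * nb r t v c := by
        rw [sum_comm]
        refine sum_congr rfl fun v _ => ?_
        unfold nb
        rw [mul_sum, sum_filter]
    _ ≤ ∑ v ∈ B, r ^ b * κ :=
        sum_le_sum fun v _ => mul_le_mul_of_nonneg_left (hκ v) (by positivity)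
    _ = (B.card : ℝ) * (r ^ b * κ) := by rw [sum_const, nsmul_eq_mul]
    _ ≤ (b : ℝ) * (r ^ b * κ) := by
        refine mul_le_mul_of_nonneg_right ?_ (by positivity)
        exact_mod_cast (ht.card B).trans hb
    _ = r ^ b * b * κ := by ring

variable {J : Type} [Fintype J]

omit [Fintype V] in
theorem count_le {B : J → Finset V} {m : ℕ}
    (hm : ∀ v, (univ.filter fun j => v ∈ B j).card ≤ m) (X : Finset V) :
    (univ.filter fun j => (X ∩ B j).Nonempty).card ≤ m * X.card := by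
  classical
  have h1 : (univ.filter fun j => (X ∩ B j).Nonempty) ⊆
      X.biUnion fun v => univ.filter fun j => v ∈ B j := by
    intro j hj
    rw [mem_filter] at hj
    obtain ⟨v, hv⟩ := hj.2
    rw [mem_inter] at hv
    rw [mem_biUnion]
    exact ⟨v, hv.1, by simp [hv.2]⟩
  calc (univ.filter fun j => (X ∩ B j).Nonempty).card
      ≤ (X.biUnion fun v => univ.filter fun j => v ∈ B j).card := card_le_card h1
    _ ≤ ∑ v ∈ X, (univ.filter fun j => v ∈ B j).card := card_biUnion_le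
    _ ≤ ∑ _v ∈ X, m := sum_le_sum fun v _ => hm v
    _ = m * X.card := by rw [sum_const, smul_eq_mul, mul_comm]

theorem sum_nx_Gp (h1 : WalshS) {t : Finset V → ℕ} (ht : IsSize t) {r : ℝ} (hr : 1 ≤ r)
    (c : Finset V → ℂ) {A B : J → Finset V} (hAB : ∀ j, A j ⊆ B j) {b m : ℕ}
    (hb : ∀ j, t (B j) ≤ b) (hm : ∀ v, (univ.filter fun j => v ∈ B j).card ≤ m)
    {κ : ℝ} (x : V) (hκ : nb r t x c ≤ κ) :
    ∑ j, nx r t (B j) x (Gp c (A j)) ≤ r ^ b * m * κ := by
  have hr0 : 0 ≤ r := by linarith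
  calc ∑ j, nx r t (B j) x (Gp c (A j))
      ≤ ∑ j, ∑ X ∈ univ.filter (fun X : Finset V => x ∈ X),
          (if (X ∩ B j).Nonempty then r ^ b * (‖c X‖ * r ^ t X) else 0) := by
        unfold nx
        exact sum_le_sum fun j _ => sum_le_sum fun X _ => term_le h1 ht hr c (hAB j) (hb j) X
    _ = ∑ X ∈ univ.filter (fun X : Finset V => x ∈ X),
          ((univ.filter fun j => (X ∩ B j).Nonempty).card : ℝ) * (r ^ b * (‖c X‖ * r ^ t X)) := by
        rw [sum_comm]
        refine sum_congr rfl fun X _ => ?_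
        rw [← sum_filter, sum_const, nsmul_eq_mul]
    _ ≤ ∑ X ∈ univ.filter (fun X : Finset V => x ∈ X),
          ((m : ℝ) * X.card) * (r ^ b * (‖c X‖ * r ^ t X)) := by
        refine sum_le_sum fun X _ => mul_le_mul_of_nonneg_right ?_ (by positivity)
        exact_mod_cast count_le hm X
    _ = r ^ b * m * nb r t x c := by
        unfold nb
        rw [mul_sum]
        exact sum_congr rfl fun X _ => by ring
    _ ≤ r ^ b * m * κ := mul_le_mul_of_nonneg_left hκ (by positivity)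

theorem nm_w {t : Finset V → ℕ} (ht : IsSize t) {r : ℝ} (hr : 1 ≤ r) {b : ℕ} {B : Finset V}
    (hb : t B ≤ b) {w : (V → Fin 2) → ℂ} {ω : ℝ} (hω : 0 ≤ ω) (hbd : ∀ Y, ‖co w Y‖ ≤ ω)
    (hs : ∀ Y, ¬ Y ⊆ B → co w Y = 0) : nm r t B w ≤ 2 ^ b * ω * r ^ b := by
  have hr0 : 0 ≤ r := by linarith
  calc nm r t B w = ∑ X ∈ B.powerset, ‖co w X‖ * r ^ t (B ∪ X) := by
        unfold nm
        symm
        refine sum_subset (subset_univ _) fun X _ hX => ?_
        rw [mem_powerset] at hX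
        rw [hs X hX]
        simp
    _ ≤ ∑ _X ∈ B.powerset, ω * r ^ b := by
        refine sum_le_sum fun X hX => ?_
        rw [mem_powerset] at hX
        rw [union_eq_left.mpr hX]
        exact mul_le_mul (hbd X) (pow_le_pow_right₀ hr hb) (by positivity) hω
    _ = (2 ^ B.card : ℝ) * (ω * r ^ b) := by
        rw [sum_const, card_powerset, nsmul_eq_mul]
        push_cast
        ring
    _ ≤ (2 ^ b : ℝ) * (ω * r ^ b) := by
        refine mul_le_mul_of_nonneg_right ?_ (by positivity)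
        exact pow_le_pow_right₀ (by norm_num) ((ht.card B).trans hb)
    _ = 2 ^ b * ω * r ^ b := by ring

theorem nx_w_zero {t : Finset V → ℕ} {r : ℝ} {B : Finset V}
    {w : (V → Fin 2) → ℂ} (hs : ∀ Y, ¬ Y ⊆ B → co w Y = 0) {x : V} (hx : x ∉ B) :
    nx r t B x w = 0 := by
  unfold nx
  refine sum_eq_zero fun X hX => ?_
  rw [mem_filter] at hX
  rw [hs X fun h => hx (h hX.2)]
  simp

theorem sum_nx_w {t : Finset V → ℕ} (ht : IsSize t) {r : ℝ} (hr : 1 ≤ r) {b m : ℕ}
    {A B : J → Finset V} {w : J → (V → Fin 2) → ℂ} {ω : ℝ} (hω : 0 ≤ ω)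
    (hp : IsPert b m t A B w ω) (x : V) :
    ∑ j, nx r t (B j) x (w j) ≤ m * (2 ^ b * ω * r ^ b) := by
  have hr0 : 0 ≤ r := by linarith
  calc ∑ j, nx r t (B j) x (w j)
      ≤ ∑ j, if x ∈ B j then 2 ^ b * ω * r ^ b else 0 := by
        refine sum_le_sum fun j _ => ?_
        split_ifs with h
        · exact (nx_le_nm hr t _ x _).trans (nm_w ht hr (hp.size j) hω (hp.bd j) (hp.supp j))
        · exact (nx_w_zero (hp.supp j) h).le
    _ = ((univ.filter fun j => x ∈ B j).card : ℝ) * (2 ^ b * ω * r ^ b) := by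
        rw [← sum_filter, sum_const, nsmul_eq_mul]
    _ ≤ m * (2 ^ b * ω * r ^ b) := by
        refine mul_le_mul_of_nonneg_right ?_ (by positivity)
        exact_mod_cast hp.mult x

/-- the first sum -/
theorem first (h1 : WalshS) (h2 : AlgS) (h3 : ExpS) {t : Finset V → ℕ} (ht : IsSize t) {r : ℝ}
    (hr : 1 ≤ r) {b m : ℕ} {A B : J → Finset V} {w : J → (V → Fin 2) → ℂ} {ω : ℝ} (hω : 0 ≤ ω)
    (hp : IsPert b m t A B w ω) {δ η : ℝ} (hδ : 2 * (r ^ b * b * δ) ≤ 1) {g g' : Finset V → ℂ}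
    (hg : ∀ x, nb r t x g ≤ δ) (hg' : ∀ x, nb r t x g' ≤ δ)
    (hd : ∀ x, nb r t x (fun X => g X - g' X) ≤ η) (x : V) :
    ∑ j, nx r t (B j) x (fun σ => w j σ * (Complex.exp (-2 * Gp g (A j) σ) -
        Complex.exp (-2 * Gp g' (A j) σ))) ≤ 2 ^ b * (r ^ b) ^ 2 * m * (8 * b + 24) * ω * η := by
  have hr0 : 0 ≤ r := by linarith
  have hη0 : 0 ≤ η := (nb_nonneg hr t x _).trans (hd x)
  have hδ0 : 0 ≤ δ := (nb_nonneg hr t x _).trans (hg x)
  set R : ℝ := r ^ b with hR
  have hR1 : 1 ≤ R := one_le_pow₀ hr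
  set W : ℝ := 2 ^ b * ω * R with hW
  have hW0 : 0 ≤ W := by positivity
  have n2 : ‖(-2 : ℂ)‖ = 2 := by simp
  -- the bound for one index
  have key : ∀ j, nx r t (B j) x (fun σ => w j σ * (Complex.exp (-2 * Gp g (A j) σ) -
        Complex.exp (-2 * Gp g' (A j) σ))) ≤
      nx r t (B j) x (w j) * (8 * (R * b * η)) +
        W * (8 * nx r t (B j) x (Gp (fun X => g X - g' X) (A j)) +
          16 * (R * b * η) * (nx r t (B j) x (Gp g (A j)) + nx r t (B j) x (Gp g' (A j)))) := by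
    intro j
    have a1 := nm_Gp h1 ht hr g (hp.sub j) (hp.ne j) (hp.size j) hg
    have a2 := nm_Gp h1 ht hr g' (hp.sub j) (hp.ne j) (hp.size j) hg'
    have a3 := nm_Gp h1 ht hr (fun X => g X - g' X) (hp.sub j) (hp.ne j) (hp.size j) hd
    rw [← hR] at a1 a2 a3
    have e1 : nm r t (B j) (fun σ => -2 * Gp g (A j) σ) ≤ 1 := by
      rw [nm_mul, n2]
      linarith
    have e2 : nm r t (B j) (fun σ => -2 * Gp g' (A j) σ) ≤ 1 := by
      rw [nm_mul, n2]
      linarith
    have ed : (fun σ => -2 * Gp g (A j) σ - -2 * Gp g' (A j) σ) =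
        fun σ => -2 * Gp (fun X => g X - g' X) (A j) σ := by
      funext σ
      rw [Gp_sub]
      ring
    obtain ⟨b1, b2⟩ := h3 V t r (B j) ht hr (hp.ne j) (fun σ => -2 * Gp g (A j) σ)
      (fun σ => -2 * Gp g' (A j) σ) 1 e1 e2 le_rfl
    have b3 := (b2 x).1
    rw [ed, nm_mul, n2] at b1
    rw [ed, nm_mul, n2, nx_mul, nx_mul, nx_mul, n2] at b3
    have c1 := (h2 V t r (B j) ht hr (hp.ne j) (w j) (fun σ => Complex.exp (-2 * Gp g (A j) σ) -
      Complex.exp (-2 * Gp g' (A j) σ))).2 x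
    have c2 : nm r t (B j) (w j) ≤ W := nm_w ht hr (hp.size j) hω (hp.bd j) (hp.supp j)
    have p1 := nx_nonneg hr t (B j) x (w j)
    have p2 := nx_nonneg hr t (B j) x (Gp g (A j))
    have p3 := nx_nonneg hr t (B j) x (Gp g' (A j))
    have p4 := nx_nonneg hr t (B j) x (Gp (fun X => g X - g' X) (A j))
    have p5 := nx_nonneg hr t (B j) x (fun σ => Complex.exp (-2 * Gp g (A j) σ) -
      Complex.exp (-2 * Gp g' (A j) σ))
    have p6 := nm_nonneg hr t (B j) (w j)
    have p7 : 0 ≤ R * b * η := by positivity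
    set Nd := nm r t (B j) (Gp (fun X => g X - g' X) (A j)) with hNd
    have d1 : nm r t (B j) (fun σ => Complex.exp (-2 * Gp g (A j) σ) -
        Complex.exp (-2 * Gp g' (A j) σ)) ≤ 8 * (R * b * η) := by
      refine b1.trans ?_
      linarith
    have d2 : nx r t (B j) x (fun σ => Complex.exp (-2 * Gp g (A j) σ) -
        Complex.exp (-2 * Gp g' (A j) σ)) ≤
        8 * nx r t (B j) x (Gp (fun X => g X - g' X) (A j)) +
          16 * (R * b * η) * (nx r t (B j) x (Gp g (A j)) + nx r t (B j) x (Gp g' (A j))) := by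
      refine b3.trans ?_
      have : 4 * (2 * Nd) * (2 * nx r t (B j) x (Gp g (A j)) + 2 * nx r t (B j) x (Gp g' (A j))) ≤
          4 * (2 * (R * b * η)) *
            (2 * nx r t (B j) x (Gp g (A j)) + 2 * nx r t (B j) x (Gp g' (A j))) :=
        mul_le_mul_of_nonneg_right (by linarith) (by linarith)
      linarith
    refine c1.trans (add_le_add (mul_le_mul_of_nonneg_left d1 p1) ?_)
    exact mul_le_mul c2 d2 p5 hW0
  refine (sum_le_sum fun j _ => key j).trans ?_
  rw [sum_add_distrib, ← sum_mul, ← mul_sum, sum_add_distrib, ← mul_sum, ← mul_sum,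
    sum_add_distrib]
  have s1 := sum_nx_w ht hr hω hp x
  have s2 := sum_nx_Gp h1 ht hr (fun X => g X - g' X) hp.sub hp.size hp.mult x (hd x)
  have s3 := sum_nx_Gp h1 ht hr g hp.sub hp.size hp.mult x (hg x)
  have s4 := sum_nx_Gp h1 ht hr g' hp.sub hp.size hp.mult x (hg' x)
  rw [← hR] at s1 s2 s3 s4
  rw [← hW] at s1
  have p7 : 0 ≤ R * b * η := by positivity
  have q1 : (∑ j, nx r t (B j) x (w j)) * (8 * (R * b * η)) ≤ (m * W) * (8 * (R * b * η)) :=
    mul_le_mul_of_nonneg_right s1 (by linarith)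
  have q2 : 16 * (R * b * η) * (∑ j, nx r t (B j) x (Gp g (A j)) +
      ∑ j, nx r t (B j) x (Gp g' (A j))) ≤ 16 * (R * b * η) * (R * m * δ + R * m * δ) :=
    mul_le_mul_of_nonneg_left (add_le_add s3 s4) (by linarith)
  have q3 : 16 * (R * b * η) * (R * m * δ + R * m * δ) ≤ 16 * (R * m * η) := by
    have : 16 * (R * b * η) * (R * m * δ + R * m * δ) = 16 * (R * m * η) * (2 * (R * b * δ)) := by
      ring
    rw [this]
    have h0 : 0 ≤ 16 * (R * m * η) := by positivity
    calc 16 * (R * m * η) * (2 * (R * b * δ)) ≤ 16 * (R * m * η) * 1 :=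
          mul_le_mul_of_nonneg_left hδ h0
      _ = 16 * (R * m * η) := by ring
  have q4 : W * (8 * ∑ j, nx r t (B j) x (Gp (fun X => g X - g' X) (A j)) +
      16 * (R * b * η) * (∑ j, nx r t (B j) x (Gp g (A j)) +
        ∑ j, nx r t (B j) x (Gp g' (A j)))) ≤ W * (8 * (R * m * η) + 16 * (R * m * η)) :=
    mul_le_mul_of_nonneg_left (by linarith) hW0
  refine (add_le_add q1 q4).trans (le_of_eq ?_)
  rw [hW]
  ring

end

theorem main (h1 : WalshS) (h2 : AlgS) (h3 : ExpS) : JPart := by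
  intro b m r hr
  have hr0 : 0 < r := by linarith
  set R : ℝ := r ^ b with hR
  have hR1 : 1 ≤ R := one_le_pow₀ hr
  refine ⟨1 / (2 * (R * (b + 1))), 2 ^ b * R ^ 2 * m * (8 * b + 24) + m * (2 ^ b * R) + 1,
    by positivity, by positivity, ?_⟩
  intro V _ _ J _ t A B w ω δ η ht hω hp hδ g g' hg hg' hd x
  have hη0 : 0 ≤ η := (nb_nonneg hr t x _).trans (hd x)
  have hδ0 : 0 ≤ δ := (nb_nonneg hr t x _).trans (hg x)
  have hδ1 : 2 * (R * (b + 1)) * δ ≤ 1 := by
    rw [le_div_iff₀ (by positivity)] at hδ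
    linarith
  have hδ2 : 2 * (R * b * δ) ≤ 1 := by
    have : 0 ≤ R * δ := by positivity
    nlinarith
  have hδ3 : δ ≤ 1 := by
    have h4 : 0 ≤ (b : ℝ) := Nat.cast_nonneg b
    have h5 : 1 * 1 ≤ R * (b + 1) := mul_le_mul hR1 (by linarith) (by norm_num) (by linarith)
    nlinarith
  have hb0 : 0 ≤ (b : ℝ) := Nat.cast_nonneg b
  have hm0 : 0 ≤ (m : ℝ) := Nat.cast_nonneg m
  have f1 := first h1 h2 h3 ht hr hω hp hδ2 hg hg' hd x
  rw [← hR] at f1
  constructor
  · refine f1.trans ?_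
    have h6 : 0 ≤ (m * (2 ^ b * R) + 1) * (ω * η) := by positivity
    nlinarith
  · have hz : ∀ x, nb r t x (fun _ : Finset V => (0 : ℂ)) ≤ δ := by
      intro y
      unfold nb
      rw [sum_eq_zero]
      · exact hδ0
      · intro X _
        simp
    have hgd : ∀ x, nb r t x (fun X => g X - (fun _ : Finset V => (0 : ℂ)) X) ≤ δ := by
      intro y
      simpa using hg y
    have f2 := first h1 h2 h3 ht hr hω hp hδ2 hg hz hgd x
    rw [← hR] at f2
    have f3 := sum_nx_w ht hr hω hp x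
    rw [← hR] at f3
    have f4 : ∑ j, nx r t (B j) x (fun σ => w j σ * Complex.exp (-2 * Gp g (A j) σ)) ≤
        ∑ j, (nx r t (B j) x (fun σ => w j σ * (Complex.exp (-2 * Gp g (A j) σ) -
          Complex.exp (-2 * Gp (fun _ => 0) (A j) σ))) + nx r t (B j) x (w j)) := by
      refine sum_le_sum fun j _ => ?_
      have e : (fun σ => w j σ * Complex.exp (-2 * Gp g (A j) σ)) =
          fun σ => w j σ * (Complex.exp (-2 * Gp g (A j) σ) -
            Complex.exp (-2 * Gp (fun _ => 0) (A j) σ)) + w j σ := by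
        funext σ
        rw [Gp_zero]
        simp
        ring
      rw [e]
      exact nx_add hr t (B j) x _ _
    rw [sum_add_distrib] at f4
    refine f4.trans ((add_le_add f2 f3).trans ?_)
    have h6 : 0 ≤ 2 ^ b * R ^ 2 * m * (8 * b + 24) * ω := by positivity
    have h7 : 2 ^ b * R ^ 2 * m * (8 * b + 24) * ω * δ ≤ 2 ^ b * R ^ 2 * m * (8 * b + 24) * ω := by
      calc 2 ^ b * R ^ 2 * m * (8 * b + 24) * ω * δ ≤ 2 ^ b * R ^ 2 * m * (8 * b + 24) * ω * 1 :=
            mul_le_mul_of_nonneg_left hδ3 h6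
        _ = _ := by ring
    nlinarith

end Pool.Agent.Q277.KT.JP
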