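import Pool.Agent.Q277.KT.JP

set_option autoImplicit false

open scoped BigOperators
open Finset Pool.Agent.Q234.KT Pool.Agent.Q277.KT.JP

namespace Pool.Agent.Q277.KT.CT

section

variable {V : Type} [Fintype V] [DecidableEq V] {J : Type} [Fintype J]

theorem co_sum {ι : Type} (s : Finset ι) (F : ι → (V → Fin 2) → ℂ) (X : Finset V) :
    co (fun σ => ∑ i ∈ s, F i σ) X = ∑ i ∈ s, co (F i) X := by
  unfold co
  rw [← mul_sum, sum_comm]
  congr 1
  exact sum_congr rfl fun σ _ => by rw [sum_mul]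

theorem sum_co {t : Finset V → ℕ} (ht : IsSize t) {r : ℝ} (hr : 1 ≤ r) (B : J → Finset V)
    (P : V → (V → Fin 2) → ℂ) (Q : J → (V → Fin 2) → ℂ) (x : V) :
    ∑ X ∈ univ.filter (fun X : Finset V => x ∈ X),
      ‖co (fun σ => ∑ u, P u σ - ∑ j, Q j σ) X‖ * r ^ t X ≤
      ∑ u, nx r t {u} x (P u) + ∑ j, nx r t (B j) x (Q j) := by
  have hr0 : 0 ≤ r := by linarith
  unfold nx
  rw [sum_comm (s := (univ : Finset V)), sum_comm (s := (univ : Finset J)), ← sum_add_distrib]
  refine sum_le_sum fun X _ => ?_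
  rw [co_sub (fun σ => ∑ u, P u σ) (fun σ => ∑ j, Q j σ), co_sum, co_sum]
  calc ‖∑ u, co (P u) X - ∑ j, co (Q j) X‖ * r ^ t X
      ≤ (∑ u, ‖co (P u) X‖ + ∑ j, ‖co (Q j) X‖) * r ^ t X := by
        refine mul_le_mul_of_nonneg_right ?_ (by positivity)
        exact (norm_sub_le _ _).trans (add_le_add (norm_sum_le _ _) (norm_sum_le _ _))
    _ = ∑ u, ‖co (P u) X‖ * r ^ t X + ∑ j, ‖co (Q j) X‖ * r ^ t X := by
        rw [add_mul, sum_mul, sum_mul]
    _ ≤ _ := by
        refine add_le_add (sum_le_sum fun u _ => ?_) (sum_le_sum fun j _ => ?_)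
        · exact mul_le_mul_of_nonneg_left
            (pow_le_pow_right₀ hr (ht.mono _ _ subset_union_right)) (norm_nonneg _)
        · exact mul_le_mul_of_nonneg_left
            (pow_le_pow_right₀ hr (ht.mono _ _ subset_union_right)) (norm_nonneg _)

/-- the norm of a family `X ↦ (2 |X|)⁻¹ co H X` -/
theorem nb_half {t : Finset V → ℕ} (r : ℝ) (c : Finset V → ℂ) (H : (V → Fin 2) → ℂ) (x : V)
    (hc : ∀ X : Finset V, x ∈ X → c X = (2 * (X.card : ℂ))⁻¹ * co H X) :
    nb r t x c = 1 / 2 * ∑ X ∈ univ.filter (fun X : Finset V => x ∈ X), ‖co H X‖ * r ^ t X := by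
  unfold nb
  rw [mul_sum]
  refine sum_congr rfl fun X hX => ?_
  rw [mem_filter] at hX
  rw [hc X hX.2, norm_mul, norm_inv, norm_mul]
  have h0 : (X.card : ℝ) ≠ 0 := by
    have : 0 < X.card := card_pos.mpr ⟨x, hX.2⟩
    positivity
  have e1 : ‖(2 : ℂ)‖ = 2 := by simp
  have e2 : ‖(X.card : ℂ)‖ = (X.card : ℝ) := by simp
  rw [e1, e2]
  field_simp

end

theorem main (h1 : UPart) (h2 : JPart) : ContrS := by
  intro b m r hr
  obtain ⟨δ₁, K, hδ₁, hK, hJ⟩ := h2 b m r hr
  refine ⟨min (1 / 96) δ₁, lt_min (by norm_num) hδ₁, ?_⟩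
  intro δ hδ hδ'
  have hδa : δ ≤ 1 / 96 := hδ'.trans (min_le_left _ _)
  have hδb : δ ≤ δ₁ := hδ'.trans (min_le_right _ _)
  refine ⟨min (δ / (2 * K)) (1 / (4 * K)), lt_min (by positivity) (by positivity), ?_⟩
  intro V _ _ J _ t A B w ht hp
  set ω : ℝ := min (δ / (2 * K)) (1 / (4 * K)) with hω
  have hω0 : 0 ≤ ω := (lt_min (by positivity) (by positivity)).le
  have hω1 : K * ω ≤ δ / 2 := by
    have h := min_le_left (δ / (2 * K)) (1 / (4 * K))
    rw [← hω, le_div_iff₀ (by positivity)] at h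
    linarith
  have hω2 : K * ω ≤ 1 / 4 := by
    have h := min_le_right (δ / (2 * K)) (1 / (4 * K))
    rw [← hω, le_div_iff₀ (by positivity)] at h
    linarith
  have hz : ∀ x : V, nb r t x (fun _ : Finset V => (0 : ℂ)) ≤ δ := by
    intro y
    unfold nb
    rw [sum_eq_zero]
    · exact hδ.le
    · intro X _
      simp
  constructor
  · intro g hg x
    have hgd : ∀ x, nb r t x (fun X => g X - (fun _ : Finset V => (0 : ℂ)) X) ≤ δ := by
      intro y
      simpa using hg y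
    have u1 := h1 V t r δ δ ht hr (by linarith) g (fun _ => 0) hg hz hgd x
    have j1 := (hJ V J t A B w ω δ δ ht hω0 hp hδb g (fun _ => 0) hg hz hgd x).2
    have e := nb_half (t := t) r (Tm A w g) (Ph A w g) x (by
      intro X hX
      unfold Tm
      rw [if_neg]
      rintro rfl
      simp at hX)
    have s := sum_co ht hr B (fun u σ => Complex.exp (-2 * Gp g {u} σ) - 1 + 2 * Gp g {u} σ)
      (fun j σ => w j σ * Complex.exp (-2 * Gp g (A j) σ)) x
    have eP : (fun σ => ∑ u, (Complex.exp (-2 * Gp g {u} σ) - 1 + 2 * Gp g {u} σ) -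
        ∑ j, w j σ * Complex.exp (-2 * Gp g (A j) σ)) = Ph A w g := rfl
    rw [eP] at s
    have eU : ∀ u : V, (fun σ => (Complex.exp (-2 * Gp g {u} σ) - 1 + 2 * Gp g {u} σ) -
        (Complex.exp (-2 * Gp (fun _ => 0) {u} σ) - 1 + 2 * Gp (fun _ => 0) {u} σ)) =
        fun σ => Complex.exp (-2 * Gp g {u} σ) - 1 + 2 * Gp g {u} σ := by
      intro u
      funext σ
      rw [Gp_zero]
      simp
    simp_rw [eU] at u1
    rw [e]
    have : 48 * δ * δ ≤ δ / 2 := by nlinarith
    linarith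
  · intro g g' η hg hg' hd x
    have hη0 : 0 ≤ η := (nb_nonneg hr t x _).trans (hd x)
    have u1 := h1 V t r δ η ht hr (by linarith) g g' hg hg' hd x
    have j1 := (hJ V J t A B w ω δ η ht hω0 hp hδb g g' hg hg' hd x).1
    have e := nb_half (t := t) r (fun X => Tm A w g X - Tm A w g' X)
      (fun σ => Ph A w g σ - Ph A w g' σ) x (by
      intro X hX
      unfold Tm
      have hne : X ≠ ∅ := by
        rintro rfl
        simp at hX
      rw [if_neg hne, if_neg hne, co_sub]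
      ring)
    have s := sum_co ht hr B (fun u σ => (Complex.exp (-2 * Gp g {u} σ) - 1 + 2 * Gp g {u} σ) -
        (Complex.exp (-2 * Gp g' {u} σ) - 1 + 2 * Gp g' {u} σ))
      (fun j σ => w j σ * (Complex.exp (-2 * Gp g (A j) σ) - Complex.exp (-2 * Gp g' (A j) σ))) x
    have eP : (fun σ => ∑ u, ((Complex.exp (-2 * Gp g {u} σ) - 1 + 2 * Gp g {u} σ) -
        (Complex.exp (-2 * Gp g' {u} σ) - 1 + 2 * Gp g' {u} σ)) -
        ∑ j, w j σ * (Complex.exp (-2 * Gp g (A j) σ) - Complex.exp (-2 * Gp g' (A j) σ))) =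
        fun σ => Ph A w g σ - Ph A w g' σ := by
      funext σ
      unfold Ph
      rw [sum_sub_distrib]
      simp_rw [mul_sub]
      rw [sum_sub_distrib (f := fun j => w j σ * Complex.exp (-2 * Gp g (A j) σ))]
      ring
    rw [eP] at s
    rw [e]
    have f1 : 48 * δ * η ≤ η / 2 := by nlinarith
    have f2 : K * ω * η ≤ 1 / 4 * η := mul_le_mul_of_nonneg_right hω2 hη0
    linarith

end Pool.Agent.Q277.KT.CT
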