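import Pool.Agent.Q80.KT.Stm

/-! Independence of functions of disjoint sets of edges. -/

open Finset MeasureTheory Filter Topology
open scoped Classical ENNReal NNReal

noncomputable section

namespace Q277.KT.IND

open Pool.Agent.Q80.KT Pool.Agent.Q287.SR

/-- the graph equal to `G` on `D` and to `H` off `D` -/
def mix {n : ℕ} (D : Set (Sym2 (Fin n))) (G H : SimpleGraph (Fin n)) : SimpleGraph (Fin n) where
  Adj a b := if s(a, b) ∈ D then G.Adj a b else H.Adj a b
  symm := ⟨fun a b h => by
    have e : s(b, a) = s(a, b) := Sym2.eq_swap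
    rw [e]
    split_ifs at h ⊢ with h1
    · exact h.symm
    · exact h.symm⟩
  loopless := ⟨fun a h => by
    split_ifs at h with h1
    · exact G.irrefl h
    · exact H.irrefl h⟩

theorem mem_mix {n : ℕ} (D : Set (Sym2 (Fin n))) (G H : SimpleGraph (Fin n)) (e : Sym2 (Fin n)) :
    e ∈ (mix D G H).edgeSet ↔ if e ∈ D then e ∈ G.edgeSet else e ∈ H.edgeSet := by
  induction e using Sym2.ind with
  | _ a b =>
    simp only [SimpleGraph.mem_edgeSet]
    rfl

theorem mix_mix {n : ℕ} (D : Set (Sym2 (Fin n))) (G H : SimpleGraph (Fin n)) :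
    mix D (mix D G H) (mix D H G) = G := by
  apply SimpleGraph.edgeSet_injective
  ext e
  rw [mem_mix, mem_mix, mem_mix]
  by_cases h : e ∈ D <;> simp [h]

theorem weight_mix {n : ℕ} (p : ℝ) (D : Set (Sym2 (Fin n))) (G H : SimpleGraph (Fin n)) :
    erWeight n p (mix D G H) * erWeight n p (mix D H G) = erWeight n p G * erWeight n p H := by
  unfold erWeight
  rw [← Finset.prod_mul_distrib, ← Finset.prod_mul_distrib]
  refine Finset.prod_congr rfl (fun e _ => ?_)
  simp only [mem_mix]
  by_cases h : e ∈ D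
  · simp only [h, if_true]
  · simp only [h, if_false]
    ring

/-- the exchange of the parts on `D` -/
def swp {n : ℕ} (D : Set (Sym2 (Fin n))) :
    (SimpleGraph (Fin n) × SimpleGraph (Fin n)) ≃ (SimpleGraph (Fin n) × SimpleGraph (Fin n)) where
  toFun q := (mix D q.1 q.2, mix D q.2 q.1)
  invFun q := (mix D q.1 q.2, mix D q.2 q.1)
  left_inv q := by
    show (mix D (mix D q.1 q.2) (mix D q.2 q.1), mix D (mix D q.2 q.1) (mix D q.1 q.2)) = q
    rw [mix_mix, mix_mix]
  right_inv q := by
    show (mix D (mix D q.1 q.2) (mix D q.2 q.1), mix D (mix D q.2 q.1) (mix D q.1 q.2)) = q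
    rw [mix_mix, mix_mix]

theorem t_IND : S_IND := by
  intro n p D D' f g hf hg hD
  have h1 : Ex n p (fun G => f G * g G) =
      ∑ q : SimpleGraph (Fin n) × SimpleGraph (Fin n),
        erWeight n p q.1 * erWeight n p q.2 * (f q.1 * g q.1) := by
    have h2 := Ex_one (n := n) p
    unfold Ex at h2 ⊢
    simp only [mul_one] at h2
    rw [Fintype.sum_prod_type]
    refine Finset.sum_congr rfl (fun G _ => ?_)
    have h3 : ∀ H : SimpleGraph (Fin n), erWeight n p G * erWeight n p H * (f G * g G) =
        erWeight n p H * (erWeight n p G * (f G * g G)) := fun H => by ring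
    simp only [h3]
    rw [← Finset.sum_mul, h2, one_mul]
  rw [h1, ← Equiv.sum_comp (swp D)]
  have h4 : Ex n p f * Ex n p g = ∑ q : SimpleGraph (Fin n) × SimpleGraph (Fin n),
        erWeight n p q.1 * erWeight n p q.2 * (f q.1 * g q.2) := by
    unfold Ex
    rw [Finset.sum_mul_sum, Fintype.sum_prod_type]
    refine Finset.sum_congr rfl (fun G _ => Finset.sum_congr rfl (fun H _ => ?_))
    ring
  rw [h4]
  refine Finset.sum_congr rfl (fun q _ => ?_)
  show erWeight n p (mix D q.1 q.2) * erWeight n p (mix D q.2 q.1) *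
    (f (mix D q.1 q.2) * g (mix D q.1 q.2)) = _
  rw [weight_mix]
  have h5 : f (mix D q.1 q.2) = f q.1 := by
    apply hf
    intro e he
    rw [mem_mix]
    simp [he]
  have h6 : g (mix D q.1 q.2) = g q.2 := by
    apply hg
    intro e he
    have he2 : e ∉ D := fun h => Set.disjoint_left.1 hD h he
    rw [mem_mix]
    simp [he2]
  rw [h5, h6]

end Q277.KT.IND
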