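import Pool.Agent.Q80.KT.Stm

/-! Symmetry of the random graph. -/

open Finset MeasureTheory Filter Topology
open scoped Classical ENNReal NNReal

noncomputable section

namespace Q277.KT.SYM

open Pool.Agent.Q80.KT Pool.Agent.Q287.SR

theorem mem_comap {n : ℕ} (σ : Equiv.Perm (Fin n)) (G : SimpleGraph (Fin n)) (e : Sym2 (Fin n)) :
    e ∈ (G.comap σ).edgeSet ↔ Sym2.map σ e ∈ G.edgeSet := by
  induction e using Sym2.ind with
  | _ a b =>
    simp only [Sym2.map_mk, SimpleGraph.mem_edgeSet, SimpleGraph.comap_adj]

theorem weight_comap {n : ℕ} (p : ℝ) (σ : Equiv.Perm (Fin n)) (G : SimpleGraph (Fin n)) :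
    erWeight n p (G.comap σ) = erWeight n p G := by
  unfold erWeight
  refine Finset.prod_bij (fun e _ => Sym2.map σ e) ?_ ?_ ?_ ?_
  · intro e he
    induction e using Sym2.ind with
    | _ a b =>
      simp only [pairs, Finset.mem_filter, Finset.mem_univ, true_and, Sym2.map_mk,
        Sym2.mk_isDiag_iff] at he ⊢
      exact fun h => he (σ.injective h)
  · intro e _ e' _ h
    exact Sym2.map.injective σ.injective h
  · intro e he
    refine ⟨Sym2.map σ.symm e, ?_, ?_⟩
    · induction e using Sym2.ind with
      | _ a b =>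
        simp only [pairs, Finset.mem_filter, Finset.mem_univ, true_and, Sym2.map_mk,
          Sym2.mk_isDiag_iff] at he ⊢
        exact fun h => he (σ.symm.injective h)
    · induction e using Sym2.ind with
      | _ a b => simp
  · intro e _
    simp only [mem_comap]

theorem t_SYM : S_SYM := by
  intro n p σ f
  unfold Ex
  refine Fintype.sum_bijective (fun G : SimpleGraph (Fin n) => G.comap σ) ?_ _ _ ?_
  · have h1 : ∀ (τ ρ : Equiv.Perm (Fin n)), (∀ x, τ (ρ x) = x) → ∀ G : SimpleGraph (Fin n),
        (G.comap τ).comap ρ = G := by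
      intro τ ρ h G
      ext a b
      simp only [SimpleGraph.comap_adj, h]
    refine Function.bijective_iff_has_inverse.2 ⟨fun G => G.comap σ.symm, ?_, ?_⟩
    · intro G
      exact h1 σ σ.symm (fun x => σ.apply_symm_apply x) G
    · intro G
      exact h1 σ.symm σ (fun x => σ.symm_apply_apply x) G
  · intro G
    rw [weight_comap]

end Q277.KT.SYM
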